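import Mathlib
import Pool.Agent.H24.FD.P4

/-!
# MP_1f2761, `k = 2`: row AVG (almost all windows have `GoodG`)
-/

set_option autoImplicit false

open Finset Pool.K2 Pool.FD MeasureTheory

namespace Pool.Agent.H24.FD

/-- small values of `κ.V_s` for the free law (row of 93) -/
def H1Stmt : Prop := ∃ l₀ : ℕ, ∀ l ≥ l₀, ∀ k u : ℕ, u ≤ k → ∀ κ : ℤ × ℤ, κ ≠ 0 →
  H1c (l * k) (l * u) (pw l k) κ hh (25 * 2 ^ l) (2 ^ (l * u))

/-- small values of `m.V / T` for the free law (row of 93) -/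
def H2Stmt : Prop := ∃ l₀ : ℕ, ∀ l ≥ l₀, ∀ k T M : ℕ, 0 < T →
  H2c (l * k) (pw l k) T M hh (25 * 2 ^ l * max 1 ((M : ℝ) / T)) (2 ^ (l * k) / T)

namespace AVG

/-- a super-exponential decay beats an exponential growth -/
lemma lim (A B c δ : ℝ) (hA : 0 ≤ A) (hB : 1 ≤ B) (hc : 0 < c) (hδ : 0 < δ) :
    ∃ l₀ : ℕ, ∀ l : ℕ, l₀ ≤ l → A * B ^ l * (2 : ℝ) ^ (-(c * (l : ℝ) ^ 2)) ≤ δ := by
  obtain ⟨l1, h1⟩ := exists_nat_ge (Real.logb 2 (2 * B) / c)
  obtain ⟨l2, h2⟩ := exists_nat_ge (A / δ)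
  refine ⟨max l1 l2, fun l hl => ?_⟩
  have hl1 : l1 ≤ l := (le_max_left _ _).trans hl
  have hl2 : l2 ≤ l := (le_max_right _ _).trans hl
  have hB0 : 0 < 2 * B := by linarith
  have h3 : 2 * B ≤ (2 : ℝ) ^ (c * l) := by
    rw [← Real.logb_le_iff_le_rpow (by norm_num) hB0]
    rw [div_le_iff₀ hc] at h1
    have : (l1 : ℝ) ≤ l := by exact_mod_cast hl1
    nlinarith
  have h4 : (2 : ℝ) ^ (-(c * (l : ℝ) ^ 2)) = (((2 : ℝ) ^ (c * l))⁻¹) ^ l := by
    rw [← Real.rpow_neg (by norm_num), ← Real.rpow_natCast ((2 : ℝ) ^ (-(c * (l : ℝ)))) l,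
      ← Real.rpow_mul (by norm_num)]
    congr 1
    ring
  rw [h4, mul_assoc, ← mul_pow]
  have hX : 0 < (2 : ℝ) ^ (c * l) := by positivity
  have h5 : B * ((2 : ℝ) ^ (c * l))⁻¹ ≤ 1 / 2 := by
    rw [← div_eq_mul_inv, div_le_div_iff₀ hX (by norm_num)]
    linarith
  have h6 : (B * ((2 : ℝ) ^ (c * l))⁻¹) ^ l ≤ (1 / 2) ^ l :=
    pow_le_pow_left₀ (by positivity) h5 l
  have h7 : A ≤ δ * 2 ^ l := by
    rw [div_le_iff₀ hδ] at h2
    have h8 : (l : ℝ) < 2 ^ l := by exact_mod_cast Nat.lt_two_pow_self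
    have h9 : (l2 : ℝ) ≤ l := by exact_mod_cast hl2
    nlinarith
  calc A * (B * ((2 : ℝ) ^ (c * l))⁻¹) ^ l ≤ A * (1 / 2) ^ l := mul_le_mul_of_nonneg_left h6 hA
    _ ≤ δ * 2 ^ l * (1 / 2) ^ l := mul_le_mul_of_nonneg_right h7 (by positivity)
    _ = δ := by
        rw [mul_assoc, ← mul_pow]; norm_num

lemma tt_le (q W J : ℕ) (hq : 2 ≤ q) (hWJ : W ≤ J) : tt q W J ≤ W := by
  unfold tt II
  have h1 : Nat.clog q (2 ^ J) ≤ Nat.clog q (2 ^ (J - W)) + W := by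
    apply Nat.clog_le_of_le_pow
    calc 2 ^ J = 2 ^ (J - W) * 2 ^ W := by rw [← pow_add]; congr 1; omega
      _ ≤ q ^ (Nat.clog q (2 ^ (J - W))) * q ^ W :=
          Nat.mul_le_mul (Nat.le_pow_clog (by omega) _) (Nat.pow_le_pow_left hq W)
      _ = _ := by rw [pow_add]
  omega

lemma gd_nonneg {q g : ℕ} (hq : 2 ≤ q) (A : ℕ) : 0 ≤ gd q g A := by
  unfold gd
  split_ifs
  · exact le_rfl
  · apply one_div_nonneg.2
    have h1 : (1 : ℝ) ≤ (q : ℝ) ^ g := one_le_pow₀ (by exact_mod_cast (by omega : 1 ≤ q))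
    rw [sub_nonneg, div_le_one (by positivity)]
    exact h1

lemma omv_nonneg {q m g t₁ : ℕ} {κ : ℝ} {wm : ℕ → ℕ → ℝ} (hq : 2 ≤ q) (hm : MK q m κ wm)
    (t V a : ℕ) : 0 ≤ omv q m g t₁ wm t V a := by
  unfold omv omK
  exact mul_nonneg (Finset.prod_nonneg fun i _ => hm.nonneg _ _) (gd_nonneg hq _)

/-- the block kernel is regular -/
lemma reg (hKER : KERStmt) (q m g t₁ t : ℕ) (κ : ℝ) (wm : ℕ → ℕ → ℝ) (hq : 2 ≤ q) (hm : 1 ≤ m)
    (hg : 1 ≤ g) (ht : t₁ + g ≤ t) (hκ : 0 ≤ κ) (hmk : MK q m κ wm) :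
    Reg q t κ (2 * (q : ℝ) ^ (κ * m)) (omv q m g t₁ wm t) := by
  obtain ⟨-, -, -, h4, -⟩ := hKER q m g t₁ t κ wm hq hm hg ht hκ hmk
  intro i hi a ha b hb
  have hq0 : (0 : ℝ) < q := by exact_mod_cast (by omega : 0 < q)
  have e1 : (q : ℝ) ^ (κ * ((i : ℝ) + m)) = (q : ℝ) ^ (κ * m) * ((q : ℝ) ^ i) ^ κ := by
    rw [← Real.rpow_natCast (q : ℝ) i, ← Real.rpow_mul hq0.le, ← Real.rpow_add hq0]
    congr 1
    ring
  calc ∑ z₁ ∈ range (q ^ (t - i)), ∑ z₂ ∈ range (q ^ (t - i)),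
      omv q m g t₁ wm t (a * q ^ (t - i) + z₁) (b * q ^ (t - i) + z₂)
      ≤ ∑ z₁ ∈ range (q ^ (t - i)), 2 * (q : ℝ) ^ (κ * ((i : ℝ) + m)) * (q : ℝ) ^ (t - i) :=
        Finset.sum_le_sum fun z₁ _ => h4 _ i hi b hb
    _ = _ := by
        rw [Finset.sum_const, card_range, nsmul_eq_mul, e1]
        push_cast
        ring

/-- first moment bound for the number of bad indices -/
lemma markov (K : ℕ) (f : ℕ → ℝ) (hf : ∀ i, 0 ≤ f i) (d : ℝ) (hd : 0 < d) :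
    (((range K).filter fun i => ¬ f i ≤ d).card : ℝ) ≤ (∑ i ∈ range K, f i) / d := by
  rw [le_div_iff₀ hd]
  calc (((range K).filter fun i => ¬ f i ≤ d).card : ℝ) * d
      = ∑ _i ∈ (range K).filter fun i => ¬ f i ≤ d, d := by
        rw [Finset.sum_const, nsmul_eq_mul]
    _ ≤ ∑ i ∈ (range K).filter fun i => ¬ f i ≤ d, f i := by
        apply Finset.sum_le_sum
        intro i hi
        exact (not_le.1 (Finset.mem_filter.1 hi).2).le
    _ ≤ ∑ i ∈ range K, f i :=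
        Finset.sum_le_sum_of_subset_of_nonneg (Finset.filter_subset _ _) fun i _ _ => hf i

lemma F4f_nonneg (w s : ℕ) (p : ℕ → ℕ → ℝ) (T Q : ℕ) (om : ℕ → ℕ → ℝ) (k : ℤ × ℤ) (y th : ℝ) :
    0 ≤ F4f w s p T Q om k y th := by
  unfold F4f
  exact Finset.sum_nonneg fun _ _ => by positivity

lemma card_bx0 (K : ℕ) : (bx0 K).card ≤ (2 * K) * (2 * K) := by
  unfold bx0
  refine (Finset.card_filter_le _ _).trans ?_
  unfold bx
  rw [Finset.card_product, Int.card_Ioo]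
  apply Nat.mul_le_mul <;> omega

end AVG

open AVG

open Classical in
/-- row AVG -/
theorem avg (hF4S : F4SStmt) (hPRH : PRHStmt) (hH1 : H1Stmt) (hH2 : H2Stmt) (hGLP : GLPStmt)
    (hMARG : MARGStmt) (hKER : KERStmt) (hGLZ : GLZStmt) : AVGStmt := by
  intro q hq p hp hp2 hpq m g T hm K₀ hm1 hg1 θ hθ d hd δ hδ
  have hq2 : 2 ≤ q := by rcases hq with h | h <;> omega
  have hqp : q.Prime := by rcases hq with h | h <;> subst h <;> norm_num
  have hqn2 : q ≠ 2 := by rcases hq with h | h <;> omega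
  have hp2' : 2 ≤ p := hp.two_le
  have hq0 : (0 : ℝ) < q := by exact_mod_cast (by omega : 0 < q)
  have hp0 : (0 : ℝ) < p := by exact_mod_cast (by omega : 0 < p)
  have hq1 : (1 : ℝ) ≤ q := by exact_mod_cast (by omega : 1 ≤ q)
  have hp1 : (1 : ℝ) ≤ p := by exact_mod_cast (by omega : 1 ≤ p)
  have hpair : PairH q p := hPRH q p hqp hp hqn2 hp2 (Ne.symm hpq)
  obtain ⟨C, hC, hF⟩ := hF4S q p hq2 hp2' hpair hh kk (by unfold hh; norm_num)
    (by unfold hh; norm_num) (by unfold kk; norm_num) (by unfold kk; norm_num)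
  obtain ⟨l1, hl1⟩ := hH1
  obtain ⟨l2, hl2⟩ := hH2
  obtain ⟨l3, hl3⟩ := hMARG eb (by unfold eb; norm_num)
  obtain ⟨C0, hC0⟩ : ∃ C0 : ℝ, C0 = 2 * (q : ℝ) ^ (kk * m) := ⟨_, rfl⟩
  have hkk : 0 < kk := by unfold kk; norm_num
  have hC01 : 1 ≤ C0 := by
    rw [hC0]
    have : 1 ≤ (q : ℝ) ^ (kk * m) := Real.one_le_rpow hq1 (by positivity)
    linarith
  obtain ⟨c, hc⟩ : ∃ c : ℝ, c = 1 / 2 - kk := ⟨_, rfl⟩
  have hc0 : 0 < c := by rw [hc]; unfold kk; norm_num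
  have hc1 : c ≤ 1 := by rw [hc]; linarith
  have hBB : (1 : ℝ) ≤ 32 * q * p := by nlinarith
  obtain ⟨l4, hl4⟩ := lim (T * (2 * K₀) ^ 2 * (C * 25 * C0 ^ 2 * p ^ hm) / d) (32 * q * p) (c * θ)
    (δ / 2) (by positivity) hBB (by positivity) (by positivity)
  obtain ⟨l5, hl5⟩ := lim ((p : ℝ) ^ hm) p θ 1 (by positivity) hp1 hθ one_pos
  refine ⟨max (max l1 l2) (max l3 (max l4 (max l5 1))), ?_⟩
  intro l hl wm hwm t₁ u₁ ht₁ htt hu₁ W hW
  have hll1 : l1 ≤ l := le_trans (by simp) hl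
  have hll2 : l2 ≤ l := le_trans (by simp) hl
  have hll3 : l3 ≤ l := le_trans (by simp) hl
  have hll4 : l4 ≤ l := le_trans (by simp) hl
  have hll5 : l5 ≤ l := le_trans (by simp) hl
  have hll6 : 1 ≤ l := le_trans (by simp) hl
  have hMg := hl3 l hll3
  have hWt := (hGLP l hMg l).1
  have hl0 : (0 : ℝ) ≤ l := Nat.cast_nonneg _
  -- the index set
  obtain ⟨ts, hts⟩ : ∃ ts : Finset ℕ, ts = (range (l * l + 1)).filter
    (fun t => t₁ + g ≤ t ∧ (q : ℝ) ^ t ≤ q * 2 ^ (l * l)) := ⟨_, rfl⟩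
  obtain ⟨S, hS⟩ : ∃ S : Finset (ℕ × ℕ × (ℤ × ℤ) × ℕ),
    S = Icc u₁ l ×ˢ Icc hm (hm + l) ×ˢ bx0 K₀ ×ˢ ts := ⟨_, rfl⟩
  obtain ⟨nS, hnS⟩ : ∃ nS : ℝ, nS = (l + 1) * (l + 1) * (2 * K₀) ^ 2 * (l ^ 2 + 1) := ⟨_, rfl⟩
  have hnS0 : 0 ≤ nS := by rw [hnS]; positivity
  have hScard : (S.card : ℝ) ≤ nS := by
    rw [hS, hnS, Finset.card_product, Finset.card_product, Finset.card_product]
    have c1 : (Icc u₁ l).card ≤ l + 1 := by rw [Nat.card_Icc]; omega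
    have c2 : (Icc hm (hm + l)).card ≤ l + 1 := by rw [Nat.card_Icc]; omega
    have c3 := card_bx0 K₀
    have c4 : ts.card ≤ l * l + 1 := by
      rw [hts]
      exact (Finset.card_filter_le _ _).trans (by simp)
    have h1 : (Icc u₁ l).card * ((Icc hm (hm + l)).card * ((bx0 K₀).card * ts.card)) ≤
        (l + 1) * ((l + 1) * ((2 * K₀ * (2 * K₀)) * (l * l + 1))) :=
      Nat.mul_le_mul c1 (Nat.mul_le_mul c2 (Nat.mul_le_mul c3 c4))
    calc (((Icc u₁ l).card * ((Icc hm (hm + l)).card * ((bx0 K₀).card * ts.card)) : ℕ) : ℝ)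
        ≤ (((l + 1) * ((l + 1) * ((2 * K₀ * (2 * K₀)) * (l * l + 1))) : ℕ) : ℝ) := by
          exact_mod_cast h1
      _ = _ := by push_cast; ring
  -- the uniform bound
  obtain ⟨R, hR⟩ : ∃ R : ℝ, R = C * 25 * C0 ^ 2 * p ^ hm * (2 * q * p) ^ l *
    (2 : ℝ) ^ (-(c * θ * (l : ℝ) ^ 2)) := ⟨_, rfl⟩
  have hR0 : 0 ≤ R := by rw [hR]; positivity
  obtain ⟨ep, hep⟩ : ∃ ep : ℝ, ep = δ * d / (2 * (T * nS + 1)) := ⟨_, rfl⟩
  have hep0 : 0 < ep := by rw [hep]; positivity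
  have hev : ∀ s ∈ S, ∀ᶠ K in Filter.atTop, ∀ J ≥ l * l,
      ∑ i ∈ range K, F4f (l * l) (l * s.1) (pw l l) (q ^ s.2.2.2) (q ^ l)
        (omv q m g t₁ wm s.2.2.2) s.2.2.1 (yy q (J + i * W - l * l))
        (yy p (J + i * W - l * s.1) / (p : ℝ) ^ s.2.1) ≤ K * (R + ep) := by
    rintro ⟨us, b', κ, t⟩ hs
    rw [hS] at hs
    simp only [Finset.mem_product, Finset.mem_Icc] at hs
    obtain ⟨⟨hu1, hu2⟩, ⟨hb1, hb2⟩, hκ, ht⟩ := hs
    rw [hts, Finset.mem_filter] at ht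
    obtain ⟨ht1, ht2, ht3⟩ := ht
    simp only
    have hκ0 : κ ≠ 0 := by
      unfold bx0 at hκ
      exact (Finset.mem_filter.1 hκ).2
    have hqt : 0 < q ^ t := Nat.pow_pos (by omega)
    have hqt' : (0 : ℝ) < ((q ^ t : ℕ) : ℝ) := by exact_mod_cast hqt
    obtain ⟨Lam, hLam⟩ : ∃ Lam : ℝ, Lam = 25 * 2 ^ l * (q : ℝ) ^ l := ⟨_, rfl⟩
    have hql : (1 : ℝ) ≤ (q : ℝ) ^ l := one_le_pow₀ hq1
    have h2l : (1 : ℝ) ≤ (2 : ℝ) ^ l := one_le_pow₀ (by norm_num)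
    have hLam1 : 1 ≤ Lam := by
      rw [hLam]; nlinarith
    -- H1
    have hH1 : H1c (l * l) (l * us) (pw l l) κ hh Lam (2 ^ (l * us)) := by
      intro D hD
      refine (hl1 l hll1 l us hu2 κ hκ0 D hD).trans ?_
      apply mul_le_mul_of_nonneg_right _ (by positivity)
      rw [hLam]
      nlinarith
    -- H2
    have hH2 : H2c (l * l) (pw l l) (q ^ t) (q ^ t * q ^ l) hh Lam (2 ^ (l * l) / ((q ^ t : ℕ) : ℝ)) := by
      intro mm hmm D hD
      refine (hl2 l hll2 l (q ^ t) (q ^ t * q ^ l) hqt mm hmm D hD).trans (le_of_eq ?_)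
      congr 1
      rw [hLam]
      congr 1
      have e1 : (((q ^ t * q ^ l : ℕ) : ℝ) / ((q ^ t : ℕ) : ℝ)) = (q : ℝ) ^ l := by
        rw [Nat.cast_mul, mul_div_assoc, mul_comm, div_mul_cancel₀ _ hqt'.ne']
        push_cast; rfl
      rw [e1, max_eq_right hql]
    have hN1 : (p : ℝ) ^ b' ≤ 2 ^ (l * us) ∧
        (((2 : ℝ) ^ (l * us)) / (p : ℝ) ^ b') ^ (kk - 1 / 2) ≤
          (p : ℝ) ^ hm * (p : ℝ) ^ l * (2 : ℝ) ^ (-(c * θ * (l : ℝ) ^ 2)) := by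
      have hus : θ * l ≤ us := hu₁.trans (by exact_mod_cast hu1)
      have hlus : θ * (l : ℝ) ^ 2 ≤ ((l * us : ℕ) : ℝ) := by
        push_cast
        nlinarith
      have hpb : (p : ℝ) ^ b' ≤ (p : ℝ) ^ hm * (p : ℝ) ^ l := by
        rw [← pow_add]
        exact pow_le_pow_right₀ hp1 hb2
      have hpb1 : (1 : ℝ) ≤ (p : ℝ) ^ b' := one_le_pow₀ hp1
      have h5 := hl5 l hll5
      rw [Real.rpow_neg (by norm_num), ← div_eq_mul_inv, div_le_one (by positivity)] at h5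
      have h6 : (2 : ℝ) ^ (θ * (l : ℝ) ^ 2) ≤ 2 ^ (l * us) := by
        rw [← Real.rpow_natCast (2 : ℝ) (l * us)]
        exact Real.rpow_le_rpow_of_exponent_le (by norm_num) hlus
      refine ⟨hpb.trans (h5.trans h6), ?_⟩
      have hpb0 : (0 : ℝ) < (p : ℝ) ^ b' := by positivity
      have e2 : kk - 1 / 2 = -c := by rw [hc]; ring
      rw [e2, Real.div_rpow (by positivity) hpb0.le, Real.rpow_neg hpb0.le, div_inv_eq_mul]
      have h7 : ((p : ℝ) ^ b') ^ c ≤ (p : ℝ) ^ hm * (p : ℝ) ^ l := by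
        calc ((p : ℝ) ^ b') ^ c ≤ ((p : ℝ) ^ b') ^ (1 : ℝ) :=
              Real.rpow_le_rpow_of_exponent_le hpb1 hc1
          _ = (p : ℝ) ^ b' := Real.rpow_one _
          _ ≤ _ := hpb
      have h8 : ((2 : ℝ) ^ (l * us)) ^ (-c) ≤ (2 : ℝ) ^ (-(c * θ * (l : ℝ) ^ 2)) := by
        rw [← Real.rpow_natCast (2 : ℝ) (l * us), ← Real.rpow_mul (by norm_num)]
        apply Real.rpow_le_rpow_of_exponent_le (by norm_num)
        have := mul_le_mul_of_nonneg_left hlus hc0.le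
        linarith
      calc ((2 : ℝ) ^ (l * us)) ^ (-c) * ((p : ℝ) ^ b') ^ c
          ≤ (2 : ℝ) ^ (-(c * θ * (l : ℝ) ^ 2)) * ((p : ℝ) ^ hm * (p : ℝ) ^ l) :=
            mul_le_mul h8 h7 (by positivity) (by positivity)
        _ = _ := by ring
    have hN2 : ((q : ℝ) ^ 3)⁻¹ ≤ 2 ^ (l * l) / ((q ^ t : ℕ) : ℝ) := by
      rw [inv_eq_one_div, div_le_div_iff₀ (by positivity) hqt']
      push_cast
      have h9 : (q : ℝ) ≤ (q : ℝ) ^ 3 := by
        calc (q : ℝ) = (q : ℝ) ^ 1 := (pow_one _).symm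
          _ ≤ (q : ℝ) ^ 3 := pow_le_pow_right₀ hq1 (by norm_num)
      have h10 : (0 : ℝ) ≤ 2 ^ (l * l) := by positivity
      nlinarith
    have hWpos : 0 < W := by
      rw [hW]; exact Nat.mul_pos (Nat.mul_pos (by omega) (by omega)) (by omega)
    obtain ⟨Kz, hKz⟩ := hF (l * l) (l * us) t l W b' (pw l l) (omv q m g t₁ wm t) κ Lam C0
      (2 ^ (l * us)) (2 ^ (l * l) / ((q ^ t : ℕ) : ℝ)) (Nat.mul_le_mul_left _ hu2) hWpos hWt hLam1
      hC01 hN1.1 hN2 hH1 hH2 (omv_nonneg hq2 hwm t)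
      (by rw [hC0]; exact reg hKER q m g t₁ t kk wm hq2 hm1 hg1 ht2 hkk.le hwm) ep hep0
    filter_upwards [Filter.eventually_ge_atTop Kz] with K hK
    intro J hJ
    refine (hKz K hK J hJ).trans ?_
    apply mul_le_mul_of_nonneg_left _ (Nat.cast_nonneg _)
    have h11 : C * Lam * C0 ^ 2 * ((2 ^ (l * us)) / (p : ℝ) ^ b') ^ (kk - 1 / 2) ≤ R := by
      have h12 : 0 ≤ C * Lam * C0 ^ 2 := by positivity
      calc C * Lam * C0 ^ 2 * ((2 ^ (l * us)) / (p : ℝ) ^ b') ^ (kk - 1 / 2)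
          ≤ C * Lam * C0 ^ 2 * ((p : ℝ) ^ hm * (p : ℝ) ^ l * (2 : ℝ) ^ (-(c * θ * (l : ℝ) ^ 2))) :=
            mul_le_mul_of_nonneg_left hN1.2 h12
        _ = R := by
            rw [hR, hLam, mul_pow, mul_pow]; ring
    linarith
  rw [← Filter.eventually_all_finset] at hev
  obtain ⟨K₁, hK₁⟩ := Filter.eventually_atTop.1 hev
  refine ⟨K₁, fun K hK J => ?_⟩
  have hb := hK₁ K hK
  -- positions
  obtain ⟨J1, hJ1⟩ : ∃ J1 : ℕ → ℕ, J1 = fun b => J + W - l * l * (3200 + b) := ⟨_, rfl⟩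
  have hJ1p : ∀ b ∈ range T, l * l ≤ J1 b ∧ ∀ i : ℕ,
      J + (i + 1) * W - l * l * (3200 + b) = J1 b + i * W := by
    intro b hbT
    rw [Finset.mem_range] at hbT
    have h1 : l * l * (3200 + b) + l * l ≤ W := by
      rw [hW]
      calc l * l * (3200 + b) + l * l = l * l * (3200 + b + 1) := by ring
        _ ≤ _ := Nat.mul_le_mul_left _ (by omega)
    have e : ∀ i : ℕ, (i + 1) * W = i * W + W := fun i => by ring
    rw [hJ1]
    refine ⟨by dsimp only; omega, fun i => ?_⟩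
    rw [e]
    dsimp only
    omega
  obtain ⟨f, hf⟩ : ∃ f : ℕ → (ℕ × ℕ × (ℤ × ℤ) × ℕ) → ℕ → ℝ, f = fun b s i =>
      F4f (l * l) (l * s.1) (pw l l) (q ^ s.2.2.2) (q ^ l)
        (omv q m g t₁ wm s.2.2.2) s.2.2.1 (yy q (J1 b + i * W - l * l))
        (yy p (J1 b + i * W - l * s.1) / (p : ℝ) ^ s.2.1) := ⟨_, rfl⟩
  have hf0 : ∀ b s i, 0 ≤ f b s i := by
    intro b s i; rw [hf]; exact F4f_nonneg _ _ _ _ _ _ _ _ _
  have hsub : ((range K).filter fun i => ¬ ∀ b, 3200 ≤ b → b < 3200 + T →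
      GoodG q m g t₁ l l wm p u₁ hm K₀ d (J + (i + 1) * W - l * l * b)) ⊆
      (range T ×ˢ S).biUnion fun bs => (range K).filter fun i => ¬ f bs.1 bs.2 i ≤ d := by
    intro i hi
    rw [Finset.mem_filter] at hi
    obtain ⟨hiK, hi⟩ := hi
    push Not at hi
    obtain ⟨b, hb1, hb2, hG⟩ := hi
    unfold GoodG at hG
    push Not at hG
    obtain ⟨us, hus, b', hb', κ, hκ, hlt⟩ := hG
    obtain ⟨b0, hb0⟩ : ∃ b0, b0 = b - 3200 := ⟨_, rfl⟩
    have hbb : b = 3200 + b0 := by omega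
    have hb0T : b0 ∈ range T := Finset.mem_range.2 (by omega)
    obtain ⟨hJl, hJe⟩ := hJ1p b0 hb0T
    rw [hbb, hJe i] at hlt
    have hJli : l * l ≤ J1 b0 + i * W := by omega
    rw [Finset.mem_biUnion]
    refine ⟨(b0, (us, b', κ, tt q (l * l) (J1 b0 + i * W))), ?_, ?_⟩
    · rw [Finset.mem_product]
      refine ⟨hb0T, ?_⟩
      rw [hS]
      simp only [Finset.mem_product]
      refine ⟨hus, hb', hκ, ?_⟩
      rw [hts, Finset.mem_filter, Finset.mem_range]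
      refine ⟨Nat.lt_succ_of_le (AVG.tt_le q (l * l) _ hq2 hJli), htt _ hJli, ?_⟩
      exact (hGLZ q (l * l) (J1 b0 + i * W) hq2 hJli 0 0).2.2.2.2.2.1.1
    · rw [Finset.mem_filter]
      refine ⟨hiK, ?_⟩
      rw [hf]
      exact not_le.2 hlt
  have hcard : (((range K).filter fun i => ¬ ∀ b, 3200 ≤ b → b < 3200 + T →
      GoodG q m g t₁ l l wm p u₁ hm K₀ d (J + (i + 1) * W - l * l * b)).card : ℝ) ≤
      ∑ bs ∈ range T ×ˢ S, (((range K).filter fun i => ¬ f bs.1 bs.2 i ≤ d).card : ℝ) := by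
    have := (Finset.card_le_card hsub).trans Finset.card_biUnion_le
    exact_mod_cast this
  refine hcard.trans ?_
  have hterm : ∀ bs ∈ range T ×ˢ S, (((range K).filter fun i => ¬ f bs.1 bs.2 i ≤ d).card : ℝ) ≤
      K * (R + ep) / d := by
    rintro ⟨b, s⟩ hbs
    rw [Finset.mem_product] at hbs
    refine (markov K (f b s) (hf0 b s) d hd).trans ?_
    apply div_le_div_of_nonneg_right _ hd.le
    rw [hf]
    exact hb s hbs.2 (J1 b) (hJ1p b hbs.1).1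
  refine (Finset.sum_le_sum hterm).trans ?_
  rw [Finset.sum_const, nsmul_eq_mul, Finset.card_product, card_range]
  have hK0 : (0 : ℝ) ≤ K := Nat.cast_nonneg _
  have hT0 : (0 : ℝ) ≤ T := Nat.cast_nonneg _
  have hmain : T * nS * (R + ep) / d ≤ δ := by
    have h1 : T * nS * R / d ≤ δ / 2 := by
      have h4 := hl4 l hll4
      refine le_trans ?_ h4
      have h16 : ((l : ℝ) + 1) * (l + 1) * (l ^ 2 + 1) ≤ 16 ^ l := by
        have h2 : (l : ℝ) + 1 ≤ 2 ^ l := by exact_mod_cast Nat.lt_two_pow_self (n := l)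
        have h3 : (l : ℝ) ^ 2 + 1 ≤ (l + 1) * (l + 1) := by nlinarith
        have h5 : (0 : ℝ) ≤ l + 1 := by linarith
        calc ((l : ℝ) + 1) * (l + 1) * (l ^ 2 + 1) ≤ (l + 1) * (l + 1) * ((l + 1) * (l + 1)) :=
              mul_le_mul_of_nonneg_left h3 (by positivity)
          _ = (l + 1) ^ 4 := by ring
          _ ≤ (2 ^ l) ^ 4 := pow_le_pow_left₀ h5 h2 4
          _ = 16 ^ l := by rw [← pow_mul, mul_comm, pow_mul]; norm_num
      have e1 : (T : ℝ) * nS * R / d = (T * (2 * K₀) ^ 2 * (C * 25 * C0 ^ 2 * p ^ hm) / d) *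
          (((l : ℝ) + 1) * (l + 1) * (l ^ 2 + 1) * (2 * q * p) ^ l) *
          (2 : ℝ) ^ (-(c * θ * (l : ℝ) ^ 2)) := by
        rw [hnS, hR]; ring
      have e2 : (32 * (q : ℝ) * p) ^ l = 16 ^ l * (2 * q * p) ^ l := by
        rw [← mul_pow]; congr 1; ring
      rw [e1, e2]
      apply mul_le_mul_of_nonneg_right _ (by positivity)
      apply mul_le_mul_of_nonneg_left _ (by positivity)
      exact mul_le_mul_of_nonneg_right h16 (by positivity)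
    have h2 : T * nS * ep / d ≤ δ / 2 := by
      rw [hep]
      have h3 : (0 : ℝ) ≤ T * nS := by positivity
      have h4 : T * nS * (δ * d / (2 * (T * nS + 1))) / d = δ / 2 * (T * nS / (T * nS + 1)) := by
        field_simp
      rw [h4]
      have h5 : T * nS / (T * nS + 1) ≤ 1 := by
        rw [div_le_one (by positivity)]; linarith
      calc δ / 2 * (T * nS / (T * nS + 1)) ≤ δ / 2 * 1 :=
            mul_le_mul_of_nonneg_left h5 (by positivity)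
        _ = _ := mul_one _
    have e3 : T * nS * (R + ep) / d = T * nS * R / d + T * nS * ep / d := by ring
    rw [e3]; linarith
  have hRe : 0 ≤ R + ep := by linarith
  calc (((T * S.card : ℕ) : ℝ)) * (K * (R + ep) / d) ≤ (T * nS) * (K * (R + ep) / d) := by
        apply mul_le_mul_of_nonneg_right _ (by positivity)
        push_cast
        exact mul_le_mul_of_nonneg_left hScard hT0
    _ = K * (T * nS * (R + ep) / d) := by ring
    _ ≤ K * δ := mul_le_mul_of_nonneg_left hmain hK0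
    _ = δ * K := mul_comm _ _

end Pool.Agent.H24.FD
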