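import Mathlib
import Pool.Agent.H84.FD.S
import Pool.Agent.H42.K2.Par
import Pool.Agent.H42.K2.Sca

/-!
# MP_1f2761, `k = 2`: rows (3.4) and (3.4') (mean over `y` of the linearised sums)
-/

set_option autoImplicit false

namespace Pool.FD

open Finset Pool.K2 MeasureTheory

lemma ex_continuous : Continuous ex := by
  unfold ex
  fun_prop

lemma phi_continuous (r : ℕ) (p : ℕ → ℕ → ℝ) (t1 t2 : ℝ) :
    Continuous fun y : ℝ => phi r p (y * t1) (y * t2) := by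
  unfold phi
  refine continuous_finsetSum _ fun n _ => continuous_finsetSum _ fun a _ => ?_
  refine continuous_const.mul ?_
  refine ex_continuous.comp ?_
  fun_prop

lemma Rc_sq_continuous (r : ℕ) (p : ℕ → ℕ → ℝ) (P : ℕ) (Om : ℕ → ℕ → ℝ) (k m : ℤ × ℤ) :
    Continuous fun y : ℝ => ‖Rc r p P Om k y m‖ ^ 2 := by
  unfold Rc
  exact (continuous_const.mul (phi_continuous r p _ _)).norm.pow 2

lemma Rc_int (r : ℕ) (p : ℕ → ℕ → ℝ) (P : ℕ) (Om : ℕ → ℕ → ℝ) (k m : ℤ × ℤ) :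
    ∫ y in (0:ℝ)..1, ‖Rc r p P Om k y m‖ ^ 2 = ‖omh P Om m.1 m.2‖ ^ 2 *
      ∫ y in (0:ℝ)..1, ‖phi r p (y * ((m.1 + k.1 * P : ℝ) / P)) (y * ((m.2 + k.2 * P : ℝ) / P))‖ ^ 2 := by
  rw [← intervalIntegral.integral_const_mul]
  apply intervalIntegral.integral_congr
  intro y _
  simp only [Rc, norm_mul, mul_pow]

/-- the box sum of the coefficients -/
lemma omd_box {P : ℕ} (hP : 1 ≤ P) (Om : ℕ → ℕ → ℝ) :
    ∑ m ∈ bx P, ‖omd P Om m.1 m.2‖ ^ 2 ≤ 4 * nrm P Om := by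
  unfold bx
  rw [Finset.sum_product]
  refine (sum_Ioo_le (fun m₁ => ∑ m₂ ∈ Ioo (-(P : ℤ)) P, ‖omd P Om m₁ m₂‖ ^ 2)
    (fun m => Finset.sum_nonneg fun _ _ => by positivity) ?_).trans ?_
  · intro m
    refine Finset.sum_congr rfl fun m₂ _ => ?_
    rw [omd_add₁ P hP]
  · have h1 : ∀ m₁ ∈ range P, ∑ m₂ ∈ Ioo (-(P : ℤ)) P, ‖omd P Om (m₁ : ℤ) m₂‖ ^ 2 ≤
        2 * ∑ m₂ ∈ range P, ‖omd P Om (m₁ : ℤ) (m₂ : ℤ)‖ ^ 2 := by
      intro m₁ _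
      refine sum_Ioo_le (fun m₂ => ‖omd P Om (m₁ : ℤ) m₂‖ ^ 2) (fun m => by positivity) ?_
      intro m
      rw [omd_add₂ P hP]
    calc 2 * ∑ m₁ ∈ range P, ∑ m₂ ∈ Ioo (-(P : ℤ)) P, ‖omd P Om (m₁ : ℤ) m₂‖ ^ 2
        ≤ 2 * ∑ m₁ ∈ range P, 2 * ∑ m₂ ∈ range P, ‖omd P Om (m₁ : ℤ) (m₂ : ℤ)‖ ^ 2 :=
          mul_le_mul_of_nonneg_left (Finset.sum_le_sum h1) (by norm_num)
      _ = 4 * nrm P Om := by
          rw [← parseval hP, ← Finset.mul_sum]; ring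

lemma mem_bx {P : ℕ} {m : ℤ × ℤ} : m ∈ bx P ↔ |m.1| < P ∧ |m.2| < P := by
  unfold bx
  simp only [mem_product, mem_Ioo, abs_lt]

/-- the size of `omh` -/
lemma omh_norm {P : ℕ} (hP : 0 < P) (Om : ℕ → ℕ → ℝ) (m : ℤ × ℤ) (hm : m ∈ bx P) :
    0 ≤ 1 - |(m.1 : ℝ)| / P ∧ 0 ≤ 1 - |(m.2 : ℝ)| / P ∧
    ‖omh P Om m.1 m.2‖ = c4 * ‖omd P Om m.1 m.2‖ * ((1 - |(m.1 : ℝ)| / P) * (1 - |(m.2 : ℝ)| / P)) := by
  have hP0 : (0 : ℝ) < P := by exact_mod_cast hP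
  obtain ⟨h1, h2⟩ := mem_bx.1 hm
  have g1 : |(m.1 : ℝ)| < P := by exact_mod_cast h1
  have g2 : |(m.2 : ℝ)| < P := by exact_mod_cast h2
  have w1 : 0 ≤ 1 - |(m.1 : ℝ)| / P := by
    have : |(m.1 : ℝ)| / P ≤ 1 := by rw [div_le_one hP0]; exact g1.le
    linarith
  have w2 : 0 ≤ 1 - |(m.2 : ℝ)| / P := by
    have : |(m.2 : ℝ)| / P ≤ 1 := by rw [div_le_one hP0]; exact g2.le
    linarith
  refine ⟨w1, w2, ?_⟩
  unfold omh
  rw [norm_mul, norm_mul, norm_mul, ex_norm, Complex.norm_real, Complex.norm_real,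
    Real.norm_eq_abs, Real.norm_eq_abs, abs_of_pos c4_pos, mul_one, abs_of_nonneg (mul_nonneg w1 w2)]

lemma omh_le {P : ℕ} (hP : 0 < P) (Om : ℕ → ℕ → ℝ) (m : ℤ × ℤ) (hm : m ∈ bx P) (w : ℝ)
    (hw : (1 - |(m.1 : ℝ)| / P) ≤ w ∨ (1 - |(m.2 : ℝ)| / P) ≤ w) :
    ‖omh P Om m.1 m.2‖ ≤ c4 * ‖omd P Om m.1 m.2‖ * w := by
  have hP0 : (0 : ℝ) < P := by exact_mod_cast hP
  obtain ⟨w1, w2, e⟩ := omh_norm hP Om m hm
  rw [e]
  have a1 : 0 ≤ |(m.1 : ℝ)| / P := by positivity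
  have a2 : 0 ≤ |(m.2 : ℝ)| / P := by positivity
  apply mul_le_mul_of_nonneg_left _ (mul_nonneg c4_pos.le (norm_nonneg _))
  rcases hw with hw | hw
  · calc _ ≤ (1 - |(m.1 : ℝ)| / P) * 1 := mul_le_mul_of_nonneg_left (by linarith) w1
      _ ≤ w := by linarith
  · calc _ ≤ 1 * (1 - |(m.2 : ℝ)| / P) := mul_le_mul_of_nonneg_right (by linarith) w2
      _ ≤ w := by linarith

lemma omh_le_one {P : ℕ} (hP : 0 < P) (Om : ℕ → ℕ → ℝ) (m : ℤ × ℤ) (hm : m ∈ bx P) :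
    ‖omh P Om m.1 m.2‖ ≤ c4 * ‖omd P Om m.1 m.2‖ := by
  have hP0 : (0 : ℝ) < P := by exact_mod_cast hP
  have := omh_le hP Om m hm 1 (Or.inl (by
    have : 0 ≤ |(m.1 : ℝ)| / P := by positivity
    linarith))
  linarith

lemma c4_sq : c4 ^ 2 ≤ 37.21 := by
  have h1 := c4_lt
  have h2 := c4_pos
  nlinarith

/-- one term of (3.4) -/
lemma term4 (r : ℕ) (p : ℕ → ℕ → ℝ) (h A Kq : ℝ) (_hh : 0 ≤ h) (hh2 : h ≤ 2) (hA : 0 ≤ A)
    (hp : HP r p h A Kq) (P : ℕ) (hP : 0 < P) (Om : ℕ → ℕ → ℝ) (k : ℤ × ℤ) (hk : k ≠ 0)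
    (hKq : nm k + 1 ≤ Kq) (m : ℤ × ℤ) (hm : m ∈ bx P) :
    ∫ y in (0:ℝ)..1, ‖Rc r p P Om k y m‖ ^ 2 ≤ c4 ^ 2 * A * ‖omd P Om m.1 m.2‖ ^ 2 := by
  have hP0 : (0 : ℝ) < P := by exact_mod_cast hP
  rw [Rc_int]
  obtain ⟨b1, b2⟩ := mem_bx.1 hm
  have g1 : |(m.1 : ℝ)| < P := by exact_mod_cast b1
  have g2 : |(m.2 : ℝ)| < P := by exact_mod_cast b2
  obtain ⟨t1, ht1⟩ : ∃ t : ℝ, t = (m.1 + k.1 * P : ℝ) / P := ⟨_, rfl⟩
  obtain ⟨t2, ht2⟩ : ∃ t : ℝ, t = (m.2 + k.2 * P : ℝ) / P := ⟨_, rfl⟩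
  rw [← ht1, ← ht2]
  obtain ⟨I, hI⟩ : ∃ I : ℝ, I = ∫ y in (0:ℝ)..1, ‖phi r p (y * t1) (y * t2)‖ ^ 2 := ⟨_, rfl⟩
  rw [← hI]
  have hI0 : 0 ≤ I := by
    rw [hI]
    exact intervalIntegral.integral_nonneg zero_le_one fun y _ => by positivity
  have e1 : t1 = m.1 / P + k.1 := by rw [ht1]; field_simp
  have e2 : t2 = m.2 / P + k.2 := by rw [ht2]; field_simp
  have f1 : |(m.1 : ℝ) / P| = |(m.1 : ℝ)| / P := by rw [abs_div, abs_of_pos hP0]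
  have f2 : |(m.2 : ℝ) / P| = |(m.2 : ℝ)| / P := by rw [abs_div, abs_of_pos hP0]
  have l1 : |(m.1 : ℝ)| / P < 1 := by rw [div_lt_one hP0]; exact g1
  have l2 : |(m.2 : ℝ)| / P < 1 := by rw [div_lt_one hP0]; exact g2
  have hD0 : 0 ≤ c4 * ‖omd P Om m.1 m.2‖ := mul_nonneg c4_pos.le (norm_nonneg _)
  have hup : max |t1| |t2| ≤ Kq := by
    have hn1 : |(k.1 : ℝ)| ≤ nm k := le_max_left _ _
    have hn2 : |(k.2 : ℝ)| ≤ nm k := le_max_right _ _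
    apply max_le
    · have := abs_add_le ((m.1 : ℝ) / P) k.1
      rw [← e1, f1] at this
      linarith
    · have := abs_add_le ((m.2 : ℝ) / P) k.2
      rw [← e2, f2] at this
      linarith
  by_cases hbig : 1 / 2 ≤ max |t1| |t2|
  · have h1 := hp.1 t1 t2 hbig hup
    rw [← hI] at h1
    have h2 := omh_le_one hP Om m hm
    calc ‖omh P Om m.1 m.2‖ ^ 2 * I ≤ (c4 * ‖omd P Om m.1 m.2‖) ^ 2 * A := by
          apply mul_le_mul (pow_le_pow_left₀ (norm_nonneg _) h2 2) h1 hI0 (by positivity)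
      _ = _ := by ring
  · push Not at hbig
    -- the weight
    have hw : (1 - |(m.1 : ℝ)| / P) ≤ max |t1| |t2| ∨ (1 - |(m.2 : ℝ)| / P) ≤ max |t1| |t2| := by
      by_cases hk1 : k.1 = 0
      · have hk2 : k.2 ≠ 0 := by
          intro hk2
          exact hk (Prod.ext hk1 hk2)
        right
        have h1 : (1 : ℝ) ≤ |(k.2 : ℝ)| := by
          exact_mod_cast Int.one_le_abs hk2
        have h2 : |(k.2 : ℝ)| ≤ |t2| + |(m.2 : ℝ)| / P := by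
          have h3 : (k.2 : ℝ) = t2 - m.2 / P := by rw [e2]; ring
          calc |(k.2 : ℝ)| = |t2 - m.2 / P| := by rw [← h3]
            _ ≤ |t2| + |(m.2 : ℝ) / P| := abs_sub _ _
            _ = _ := by rw [f2]
        have h3 : |t2| ≤ max |t1| |t2| := le_max_right _ _
        linarith
      · left
        have h1 : (1 : ℝ) ≤ |(k.1 : ℝ)| := by
          exact_mod_cast Int.one_le_abs hk1
        have h2 : |(k.1 : ℝ)| ≤ |t1| + |(m.1 : ℝ)| / P := by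
          have h3 : (k.1 : ℝ) = t1 - m.1 / P := by rw [e1]; ring
          calc |(k.1 : ℝ)| = |t1 - m.1 / P| := by rw [← h3]
            _ ≤ |t1| + |(m.1 : ℝ) / P| := abs_sub _ _
            _ = _ := by rw [f1]
        have h3 : |t1| ≤ max |t1| |t2| := le_max_left _ _
        linarith
    have hpos : 0 < max |t1| |t2| := by
      rcases hw with hw | hw <;> linarith
    have h1 := hp.2 t1 t2 hpos hbig.le
    rw [← hI] at h1
    have h2 := omh_le hP Om m hm _ hw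
    obtain ⟨T, hT⟩ : ∃ T : ℝ, T = max |t1| |t2| := ⟨_, rfl⟩
    rw [← hT] at h1 h2 hpos hbig
    have hT1 : T ≤ 1 := by linarith
    have h3 : T ^ 2 * T ^ (-h) ≤ 1 := by
      rw [← Real.rpow_natCast T 2, ← Real.rpow_add hpos]
      apply Real.rpow_le_one hpos.le hT1
      push_cast; linarith
    calc ‖omh P Om m.1 m.2‖ ^ 2 * I ≤ (c4 * ‖omd P Om m.1 m.2‖ * T) ^ 2 * (A * T ^ (-h)) := by
          apply mul_le_mul (pow_le_pow_left₀ (norm_nonneg _) h2 2) h1 hI0 (by positivity)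
      _ = c4 ^ 2 * A * ‖omd P Om m.1 m.2‖ ^ 2 * (T ^ 2 * T ^ (-h)) := by ring
      _ ≤ c4 ^ 2 * A * ‖omd P Om m.1 m.2‖ ^ 2 * 1 := by
          apply mul_le_mul_of_nonneg_left h3; positivity
      _ = _ := mul_one _

/-- (3.4) -/
theorem fk4 : FK4Stmt := by
  intro r p h A Kq _ hh hh2 hA hp P hP Om _ k hk hKq
  unfold Fk
  rw [intervalIntegral.integral_finsetSum
    (fun m _ => (Rc_sq_continuous r p P Om k m).intervalIntegrable 0 1)]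
  have hn : 0 ≤ nrm P Om := by
    unfold nrm
    apply div_nonneg _ (by positivity)
    exact Finset.sum_nonneg fun _ _ => Finset.sum_nonneg fun _ _ => by positivity
  calc ∑ m ∈ bx P, ∫ y in (0:ℝ)..1, ‖Rc r p P Om k y m‖ ^ 2
      ≤ ∑ m ∈ bx P, c4 ^ 2 * A * ‖omd P Om m.1 m.2‖ ^ 2 :=
        Finset.sum_le_sum fun m hm => term4 r p h A Kq hh hh2 hA hp P hP Om k hk hKq m hm
    _ = c4 ^ 2 * A * ∑ m ∈ bx P, ‖omd P Om m.1 m.2‖ ^ 2 := by rw [← Finset.mul_sum]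
    _ ≤ c4 ^ 2 * A * (4 * nrm P Om) :=
        mul_le_mul_of_nonneg_left (omd_box hP Om) (by positivity)
    _ ≤ 37.21 * A * (4 * nrm P Om) := by
        apply mul_le_mul_of_nonneg_right _ (by positivity)
        exact mul_le_mul_of_nonneg_right c4_sq hA
    _ ≤ 190 * A * nrm P Om := by
        have : 0 ≤ A * nrm P Om := mul_nonneg hA hn
        nlinarith

/-- (3.4') -/
theorem fk5 : FK5Stmt := by
  intro r p h A Kq _ hh hA hKq hp q t kap C0 Om hq _ hC0 hOm hR i hi1 hit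
  have hq1 : 1 ≤ q := by omega
  have hq0 : (0 : ℝ) < q := by exact_mod_cast (by omega : 0 < q)
  have hq1' : (1 : ℝ) ≤ q := by exact_mod_cast hq1
  have hP : 0 < q ^ t := Nat.pow_pos (by omega)
  have hP0 : (0 : ℝ) < ((q ^ t : ℕ) : ℝ) := by exact_mod_cast hP
  have hPc : ((q ^ t : ℕ) : ℝ) = (q : ℝ) ^ t := by push_cast; rfl
  obtain ⟨B, hB⟩ : ∃ B : ℝ, B = ((q:ℝ) ^ t / (q:ℝ) ^ (i - 1)) ^ h := ⟨_, rfl⟩
  have hrat : (1 : ℝ) ≤ (q:ℝ) ^ t / (q:ℝ) ^ (i - 1) := by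
    rw [one_le_div (by positivity)]
    exact pow_le_pow_right₀ hq1' (by omega)
  have hB1 : 1 ≤ B := by
    rw [hB]; exact Real.one_le_rpow hrat hh
  rw [← hB]
  unfold Fs
  rw [intervalIntegral.integral_finsetSum
    (fun m _ => (Rc_sq_continuous r p (q ^ t) Om 0 m).intervalIntegrable 0 1)]
  have hterm : ∀ m ∈ sh q i (q ^ t), ∫ y in (0:ℝ)..1, ‖Rc r p (q ^ t) Om 0 y m‖ ^ 2 ≤
      c4 ^ 2 * (A * B) * ‖omd (q ^ t) Om m.1 m.2‖ ^ 2 := by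
    intro m hm
    unfold sh at hm
    rw [Finset.mem_filter] at hm
    obtain ⟨hmb, hlo, hhi⟩ := hm
    rw [Rc_int]
    obtain ⟨b1, b2⟩ := mem_bx.1 hmb
    have g1 : |(m.1 : ℝ)| < ((q ^ t : ℕ) : ℝ) := by exact_mod_cast b1
    have g2 : |(m.2 : ℝ)| < ((q ^ t : ℕ) : ℝ) := by exact_mod_cast b2
    have e1 : ((m.1 + (0 : ℤ × ℤ).1 * ((q ^ t : ℕ) : ℝ) : ℝ) / ((q ^ t : ℕ) : ℝ)) =
        m.1 / ((q ^ t : ℕ) : ℝ) := by simp
    have e2 : ((m.2 + (0 : ℤ × ℤ).2 * ((q ^ t : ℕ) : ℝ) : ℝ) / ((q ^ t : ℕ) : ℝ)) =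
        m.2 / ((q ^ t : ℕ) : ℝ) := by simp
    rw [e1, e2]
    obtain ⟨t1, ht1⟩ : ∃ t' : ℝ, t' = (m.1 : ℝ) / ((q ^ t : ℕ) : ℝ) := ⟨_, rfl⟩
    obtain ⟨t2, ht2⟩ : ∃ t' : ℝ, t' = (m.2 : ℝ) / ((q ^ t : ℕ) : ℝ) := ⟨_, rfl⟩
    rw [← ht1, ← ht2]
    have hmax : max |t1| |t2| = nm m / ((q ^ t : ℕ) : ℝ) := by
      rw [ht1, ht2, abs_div, abs_div, abs_of_pos hP0]
      unfold nm
      exact (max_div_div_right hP0.le _ _)
    obtain ⟨I, hI⟩ : ∃ I : ℝ, I = ∫ y in (0:ℝ)..1, ‖phi r p (y * t1) (y * t2)‖ ^ 2 := ⟨_, rfl⟩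
    rw [← hI]
    have hI0 : 0 ≤ I := by
      rw [hI]
      exact intervalIntegral.integral_nonneg zero_le_one fun y _ => by positivity
    have hle1 : max |t1| |t2| ≤ 1 := by
      rw [hmax, div_le_one hP0]
      exact max_le g1.le g2.le
    have hlow : (q:ℝ) ^ (i - 1) / (q:ℝ) ^ t ≤ max |t1| |t2| := by
      rw [hmax, hPc]
      exact div_le_div_of_nonneg_right hlo (by positivity)
    have hlow0 : 0 < (q:ℝ) ^ (i - 1) / (q:ℝ) ^ t := by positivity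
    have hpos : 0 < max |t1| |t2| := lt_of_lt_of_le hlow0 hlow
    have hIB : I ≤ A * B := by
      by_cases hbig : 1 / 2 ≤ max |t1| |t2|
      · have h1 := hp.1 t1 t2 hbig (hle1.trans hKq)
        rw [← hI] at h1
        nlinarith
      · push Not at hbig
        have h1 := hp.2 t1 t2 hpos hbig.le
        rw [← hI] at h1
        refine h1.trans ?_
        apply mul_le_mul_of_nonneg_left _ hA
        have h2 : (max |t1| |t2|) ^ (-h) ≤ ((q:ℝ) ^ (i - 1) / (q:ℝ) ^ t) ^ (-h) :=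
          Real.rpow_le_rpow_of_nonpos hlow0 hlow (by linarith)
        refine h2.trans (le_of_eq ?_)
        rw [hB, Real.rpow_neg hlow0.le, ← Real.inv_rpow hlow0.le, inv_div]
    have h2 := omh_le_one hP Om m hmb
    calc ‖omh (q ^ t) Om m.1 m.2‖ ^ 2 * I ≤ (c4 * ‖omd (q ^ t) Om m.1 m.2‖) ^ 2 * (A * B) := by
          apply mul_le_mul (pow_le_pow_left₀ (norm_nonneg _) h2 2) hIB hI0 (by positivity)
      _ = _ := by ring
  have hsub : sh q i (q ^ t) ⊆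
      Ioo (-(q ^ i : ℕ) : ℤ) (q ^ i : ℕ) ×ˢ Ioo (-(q ^ i : ℕ) : ℤ) (q ^ i : ℕ) := by
    intro m hm
    unfold sh at hm
    rw [Finset.mem_filter] at hm
    obtain ⟨_, _, hhi⟩ := hm
    have h1 : |(m.1 : ℝ)| < (q : ℝ) ^ i := lt_of_le_of_lt (le_max_left _ _) hhi
    have h2 : |(m.2 : ℝ)| < (q : ℝ) ^ i := lt_of_le_of_lt (le_max_right _ _) hhi
    have h1' : |m.1| < ((q ^ i : ℕ) : ℤ) := by exact_mod_cast h1
    have h2' : |m.2| < ((q ^ i : ℕ) : ℤ) := by exact_mod_cast h2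
    rw [abs_lt] at h1' h2'
    rw [mem_product, mem_Ioo, mem_Ioo]
    exact ⟨h1', h2'⟩
  have hAB : 0 ≤ c4 ^ 2 * (A * B) := by positivity
  have hk : 0 ≤ ((q:ℝ) ^ i) ^ kap := by positivity
  have hsc := scale hq1 hit (fun z₁ _ z₂ _ => hOm z₁ z₂) hR
  calc ∑ m ∈ sh q i (q ^ t), ∫ y in (0:ℝ)..1, ‖Rc r p (q ^ t) Om 0 y m‖ ^ 2
      ≤ ∑ m ∈ sh q i (q ^ t), c4 ^ 2 * (A * B) * ‖omd (q ^ t) Om m.1 m.2‖ ^ 2 :=
        Finset.sum_le_sum hterm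
    _ = c4 ^ 2 * (A * B) * ∑ m ∈ sh q i (q ^ t), ‖omd (q ^ t) Om m.1 m.2‖ ^ 2 := by
        rw [← Finset.mul_sum]
    _ ≤ c4 ^ 2 * (A * B) * (170 * C0 ^ 2 * ((q : ℝ) ^ i) ^ kap) := by
        apply mul_le_mul_of_nonneg_left _ hAB
        refine le_trans ?_ hsc
        rw [← Finset.sum_product']
        exact Finset.sum_le_sum_of_subset_of_nonneg hsub fun _ _ _ => by positivity
    _ ≤ 37.21 * (A * B) * (170 * C0 ^ 2 * ((q : ℝ) ^ i) ^ kap) := by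
        apply mul_le_mul_of_nonneg_right _ (by positivity)
        apply mul_le_mul_of_nonneg_right c4_sq (by positivity)
    _ ≤ 6400 * C0 ^ 2 * A * B * ((q:ℝ) ^ i) ^ kap := by
        have : 0 ≤ C0 ^ 2 * A * B * ((q:ℝ) ^ i) ^ kap := by positivity
        nlinarith

end Pool.FD
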