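import Mathlib
import Pool.Agent.H24.FD.P3

/-!
# MP_1f2761, `k = 2`: row SFV (the theorem of section 5)
-/

set_option autoImplicit false

open Finset Pool.K2 Pool.FD MeasureTheory

namespace Pool.Agent.H24.FD

namespace SFV

lemma gd_nonneg {q g : ℕ} (hq : 2 ≤ q) (A : ℕ) : 0 ≤ gd q g A := by
  unfold gd
  split_ifs
  · exact le_rfl
  · apply one_div_nonneg.2
    have h1 : (1 : ℝ) ≤ (q : ℝ) ^ g := one_le_pow₀ (by exact_mod_cast (by omega : 1 ≤ q))
    rw [sub_nonneg, div_le_one (by positivity)]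
    exact h1

lemma omW_nonneg {q m g t₁ : ℕ} {κ : ℝ} {wm : ℕ → ℕ → ℝ} (hq : 2 ≤ q) (hm : MK q m κ wm)
    (w G Jt J : ℕ) (z : ℕ × ℕ) : 0 ≤ omW q m g t₁ wm w G Jt J z := by
  unfold omW
  split_ifs
  · exact zero_le_one
  · unfold omK
    exact mul_nonneg (Finset.prod_nonneg fun i _ => hm.nonneg _ _) (gd_nonneg hq _)

lemma tt_le (q W J : ℕ) (hq : 2 ≤ q) (hWJ : W ≤ J) : tt q W J ≤ W := by
  unfold tt II
  have h1 : Nat.clog q (2 ^ J) ≤ Nat.clog q (2 ^ (J - W)) + W := by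
    apply Nat.clog_le_of_le_pow
    calc 2 ^ J = 2 ^ (J - W) * 2 ^ W := by rw [← pow_add]; congr 1; omega
      _ ≤ q ^ (Nat.clog q (2 ^ (J - W))) * q ^ W :=
          Nat.mul_le_mul (Nat.le_pow_clog (by omega) _) (Nat.pow_le_pow_left hq W)
      _ = _ := by rw [pow_add]
  omega

lemma tt_mono (q W W' J : ℕ) (h : W ≤ W') : tt q W J ≤ tt q W' J := by
  unfold tt II
  have h1 : Nat.clog q (2 ^ (J - W')) ≤ Nat.clog q (2 ^ (J - W)) :=
    Nat.clog_mono_right _ (Nat.pow_le_pow_right (by omega) (by omega))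
  omega

lemma s0_nonneg (q m t₁ l c : ℕ) : 0 ≤ s0 q m t₁ l c := by
  unfold s0
  positivity

lemma C1_nonneg (c : ℕ) : 0 ≤ C1 c := by
  unfold C1
  positivity

/-- number of look-back blocks -/
lemma nblocks (l k K : ℕ) (hl : 0 < l) (hk : 200 ≤ k) (hK2 : 2 ≤ K)
    (hK : (K : ℝ) ≤ 10 * 4 ^ (l * k) * 2 ^ (l * k * 1100)) :
    ∃ n, 1 ≤ n ∧ n ≤ 2100 ∧ vv l K ≤ k * n ∧ k * n < vv l K + k := by
  have hl' : (0 : ℝ) < l := by exact_mod_cast hl
  have hl1 : (1 : ℝ) ≤ l := by exact_mod_cast hl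
  have hk' : (200 : ℝ) ≤ k := by exact_mod_cast hk
  have hK2' : (2 : ℝ) ≤ K := by exact_mod_cast hK2
  have hlog1 : (1 : ℝ) ≤ Real.logb 2 K := by
    rw [Real.le_logb_iff_rpow_le (by norm_num) (by linarith)]
    simpa using hK2'
  have hlog2 : Real.logb 2 K ≤ 4 + 1102 * (l * k) := by
    rw [Real.logb_le_iff_le_rpow (by norm_num) (by linarith)]
    refine hK.trans ?_
    have e1 : (2 : ℝ) ^ ((4 : ℝ) + 1102 * (l * k)) = 2 ^ 4 * (2 ^ 2) ^ (l * k) * 2 ^ (l * k * 1100) := by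
      rw [← pow_mul, ← pow_add, ← pow_add, ← Real.rpow_natCast]
      congr 1
      push_cast
      ring
    rw [e1]
    apply mul_le_mul_of_nonneg_right _ (by positivity)
    have e2 : (2 : ℝ) ^ 2 = 4 := by norm_num
    rw [e2]
    apply mul_le_mul_of_nonneg_right _ (by positivity)
    norm_num
  have hv1 : 1 ≤ vv l K := by
    unfold vv
    apply Nat.ceil_pos.2
    have : 0 < Real.logb 2 K := by linarith
    positivity
  have hv2 : vv l K ≤ 2099 * k := by
    unfold vv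
    apply Nat.ceil_le.2
    rw [div_le_iff₀ hl']
    push_cast
    have : (200 : ℝ) ≤ l * k := by nlinarith
    nlinarith
  have hk0 : 0 < k := by omega
  have h1 := Nat.div_mul_le_self (vv l K + k - 1) k
  have h2 := Nat.lt_div_mul_add (a := vv l K + k - 1) hk0
  rw [mul_comm] at h1 h2
  refine ⟨(vv l K + k - 1) / k, ?_, ?_, by omega, by omega⟩
  · rw [Nat.le_div_iff_mul_le hk0]; omega
  · apply Nat.le_of_lt_succ
    rw [Nat.div_lt_iff_lt_mul hk0]
    omega

end SFV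

open SFV

/-- row SFV -/
theorem sfv (hIND : INDStmt) (hSPL : SPLStmt) (hEQB : EQBStmt) (hETR : ETRStmt) (hGLZ : GLZStmt)
    (hCRF : CRFStmt) (hSTP : STPStmt) (hCOP : COPStmt) (hCOC : COCStmt) : SFVStmt := by
  intro q m g t₁ l k T Jt wm hP hk200 hJt hgood
  have hq := hP.hq
  have hq5 : (q : ℝ) ≤ 5 := by exact_mod_cast hP.hq5
  have hq2 : (2 : ℝ) ≤ q := by exact_mod_cast hq
  have hl := hP.hl
  have hk0 := hP.hk
  obtain ⟨om, hom⟩ : ∃ om, om = omW q m g t₁ wm (l * k) 3200 Jt := ⟨_, rfl⟩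
  have hom0 : ∀ J z, 0 ≤ om J z := by
    intro J z; rw [hom]; exact omW_nonneg hq hP.hmk _ _ _ _ _
  obtain ⟨s1, s2, s3, s4⟩ := hSPL q l k eb om hP.marg hom0
  obtain ⟨e1, -⟩ := hEQB q l k eb om hP.marg hom0
  obtain ⟨s, hs⟩ : ∃ s, s = s0 q m t₁ l 1100 := ⟨_, rfl⟩
  have hs0 : 0 ≤ s := by rw [hs]; exact s0_nonneg _ _ _ _ _
  -- constants
  have hzero : ∀ (n J : ℕ) (x : ℕ × ℕ), ET q l k eb om J n (fun _ => (0 : ℝ)) x = 0 := by
    intro n J x
    have h := s4 n J (fun _ => 0) (fun _ => 0) 1 x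
    simp only [mul_zero, add_zero, one_mul] at h
    linarith
  have hone : ∀ (n J : ℕ) (x : ℕ × ℕ), ET q l k eb om J n (fun _ => (1 : ℝ)) x ≤ 1 := by
    intro n J x
    have h := (s1 n J (fun _ => 1) x (fun _ => zero_le_one) (fun _ => le_rfl)).1
    rw [e1] at h
    exact h
  have hconst : ∀ (n J : ℕ) (c : ℝ) (x : ℕ × ℕ), 0 ≤ c → ET q l k eb om J n (fun _ => c) x ≤ c := by
    intro n J c x hc
    have h := s4 n J (fun _ => 1) (fun _ => 0) c x
    simp only [mul_one, add_zero, hzero] at h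
    rw [h]
    calc c * ET q l k eb om J n (fun _ => (1 : ℝ)) x ≤ c * 1 :=
          mul_le_mul_of_nonneg_left (hone n J x) hc
      _ = c := mul_one c
  -- positions
  have hJb : ∀ b, b < 3200 + T → l * k * (b + 1) ≤ Jt := fun b hb =>
    (Nat.mul_le_mul_left _ (by omega)).trans hJt
  have hJb' : ∀ b, b < 3200 + T → l * k ≤ Jt - l * k * b := by
    intro b hb
    have := hJb b hb
    rw [Nat.mul_add, Nat.mul_one] at this
    omega
  -- exceptional states
  obtain ⟨Ev, hEv⟩ : ∃ Ev : ℕ → ℕ → ℕ → ℕ × ℕ → Prop, Ev = fun b u i y =>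
      (u ∈ Ico 1 k ∧ i ∈ Ioc t₁ (tt q (l * u) (Jt - l * k * b)) ∧
        (q : ℝ) ^ (-(5 / 10000 * i : ℝ)) < ShP q m g t₁ l k wm (Jt - l * k * b) u i
          (y.1 * yy q (Jt - l * k * b)) (y.2 * yy q (Jt - l * k * b))) ∨
      (u = k ∧ b + 1100 ≤ 3200 + T ∧ i ∈ Ioc t₁ (tt q (l * k * 1100) (Jt - l * k * b)) ∧
        (q : ℝ) ^ (-(5 / 10000 * i : ℝ)) < ShC q m g t₁ l k 3200 Jt wm 1100 (Jt - l * k * b) i
          (y.1 * yy q (Jt - l * k * b)) (y.2 * yy q (Jt - l * k * b))) ∨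
      (u = k + 1 ∧ b + 1100 ≤ 3200 + T ∧
        (2 : ℝ) ^ (-(1 / 1000 * (l * k * 1100) : ℝ)) <
          HiC q m g t₁ l k 3200 Jt wm 1100 (Jt - l * k * b) (4 ^ (l * k))
          (y.1 * yy q (Jt - l * k * b)) (y.2 * yy q (Jt - l * k * b))) := ⟨_, rfl⟩
  obtain ⟨Exc, hExc⟩ : ∃ Exc : ℕ → ℕ × ℕ → Prop, Exc = fun b y =>
      ExP q m g t₁ l k wm (Jt - l * k * b)
        (y.1 * yy q (Jt - l * k * b)) (y.2 * yy q (Jt - l * k * b)) ∨
      (b + 1100 ≤ 3200 + T ∧ ExC q m g t₁ l k 3200 Jt wm 1100 (Jt - l * k * b) (4 ^ (l * k))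
        (y.1 * yy q (Jt - l * k * b)) (y.2 * yy q (Jt - l * k * b))) := ⟨_, rfl⟩
  have hpow : ∀ b, 2100 ≤ b → b < 3200 + T → ∀ W, W ≤ l * k * 1100 → W ≤ Jt - l * k * b →
      ∀ i ≤ tt q W (Jt - l * k * b), ((q ^ i : ℕ) : ℝ) ≤ 5 * 2 ^ (l * k * 1100) := by
    intro b hb1 hb2 W hW1 hW2 i hi
    have h1 := (hGLZ q W (Jt - l * k * b) hq hW2 0 0).2.2.2.2.2.1.1
    calc ((q ^ i : ℕ) : ℝ) = (q : ℝ) ^ i := by push_cast; rfl
      _ ≤ (q : ℝ) ^ tt q W (Jt - l * k * b) := pow_le_pow_right₀ (by linarith) hi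
      _ ≤ q * 2 ^ W := h1
      _ ≤ 5 * 2 ^ (l * k * 1100) := by
          apply mul_le_mul hq5 (pow_le_pow_right₀ (by norm_num) hW1) (by positivity) (by norm_num)
  -- one covering set
  have hcov : ∀ b, 2100 ≤ b → b < 3200 + T → ∀ (K : ℕ) (E : Finset (ℕ × ℕ)),
      (K : ℝ) ≤ 10 * 4 ^ (l * k) * 2 ^ (l * k * 1100) → q ^ (t₁ + 1) ≤ K →
      E ⊆ range K ×ˢ range K → (E.card : ℝ) / (K : ℝ) ^ 2 ≤ (K : ℝ) ^ (-(53 / 100 : ℝ)) →
      Dk (l * vv l K) (pw l (vv l K)) K (yy q (Jt - l * k * b)) ≤ (K : ℝ) ^ (-(48 / 100 : ℝ)) →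
      ∀ P : ℕ × ℕ → Prop, (∀ y : ℕ × ℕ, P y →
        (ix K (y.1 * yy q (Jt - l * k * b)), ix K (y.2 * yy q (Jt - l * k * b))) ∈ E) →
      ∃ bb, bb < b ∧ ∀ x, (2100 ≤ bb → ¬ Exc bb x) →
        ET q l k eb om (Jt - l * k * bb) (b - bb)
          (fun y => @ite ℝ (P y) (Classical.propDecidable _) 1 0) x ≤ s := by
    intro b hb1 hb2 K E hKub hKlb hE hEc hD P hPE
    have hK2 : 2 ≤ K := by
      calc 2 ≤ q := hq
        _ = q ^ 1 := (pow_one q).symm
        _ ≤ q ^ (t₁ + 1) := Nat.pow_le_pow_right (by omega) (by omega)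
        _ ≤ K := hKlb
    obtain ⟨n, hn1, hn2, hn3, hn4⟩ := nblocks l k K hl hk200 hK2 hKub
    refine ⟨b - n, by omega, fun x hx => ?_⟩
    have hbn : b - (b - n) = n := by omega
    rw [hbn]
    have hlkb : l * k * b ≤ Jt :=
      (Nat.mul_le_mul_left _ (by omega : b ≤ b + 1)).trans (hJb b hb2)
    have h1 := hCRF q m g t₁ l k 3200 Jt 1100 K wm hP b n E hlkb (by omega) hn1 (by omega) hn3 hn4
      hKlb hE hEc hD x (by
        intro hG hexp
        apply hx (by omega)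
        rw [hExc]
        exact Or.inl hexp)
    rw [← hom, ← hs] at h1
    refine le_trans ?_ h1
    apply s3
    intro y
    by_cases hy : P y
    · rw [if_pos hy, if_pos (hPE y hy)]
    · rw [if_neg hy]
      split_ifs <;> norm_num
  -- all covering sets
  have H : ∀ b idx : ℕ, ∃ bb, 2100 ≤ b → b < 3200 + T → (bb < b ∧ ∀ x, (2100 ≤ bb → ¬ Exc bb x) →
        ET q l k eb om (Jt - l * k * bb) (b - bb)
          (fun y => @ite ℝ (Ev b (idx / (l * k * 1100 + 3)) (idx % (l * k * 1100 + 3)) y)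
            (Classical.propDecidable _) 1 0) x ≤ s) := by
    intro b idx
    obtain ⟨u, hu⟩ : ∃ u, u = idx / (l * k * 1100 + 3) := ⟨_, rfl⟩
    obtain ⟨i, hi⟩ : ∃ i, i = idx % (l * k * 1100 + 3) := ⟨_, rfl⟩
    rw [← hu, ← hi]
    have hilt : i < l * k * 1100 + 3 := by rw [hi]; exact Nat.mod_lt _ (by omega)
    by_cases hb : 2100 ≤ b ∧ b < 3200 + T
    · obtain ⟨hb1, hb2⟩ := hb
      obtain ⟨gP, gD, gC⟩ := hgood b hb1 hb2
      have hlk := hJb' b hb2
      suffices ∃ bb, bb < b ∧ ∀ x, (2100 ≤ bb → ¬ Exc bb x) →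
          ET q l k eb om (Jt - l * k * bb) (b - bb)
          (fun y => @ite ℝ (Ev b u i y) (Classical.propDecidable _) 1 0) x ≤ s by
        obtain ⟨bb, h⟩ := this
        exact ⟨bb, fun _ _ => h⟩
      have hnone : (∀ y, ¬ Ev b u i y) → ∃ bb, bb < b ∧ ∀ x, (2100 ≤ bb → ¬ Exc bb x) →
          ET q l k eb om (Jt - l * k * bb) (b - bb)
          (fun y => @ite ℝ (Ev b u i y) (Classical.propDecidable _) 1 0) x ≤ s := by
        intro hno
        refine ⟨b - 1, by omega, fun x _ => ?_⟩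
        have h1 : (fun y => @ite ℝ (Ev b u i y) (Classical.propDecidable _) 1 0) =
            fun _ => (0 : ℝ) := by
          funext y
          rw [if_neg (hno y)]
        rw [h1, hzero]
        exact hs0
      by_cases c1 : u ∈ Ico 1 k ∧ i ∈ Ioc t₁ (tt q (l * u) (Jt - l * k * b))
      · obtain ⟨E, hE, hEc, hEs⟩ := hCOP q m g t₁ l k (Jt - l * k * b) wm hP hlk gP u c1.1 i c1.2
        have hul : l * u ≤ l * k := Nat.mul_le_mul_left _ (by have := Finset.mem_Ico.1 c1.1; omega)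
        have hi1 := Finset.mem_Ioc.1 c1.2
        have hW1 : l * u ≤ l * k * 1100 := hul.trans (by omega)
        refine hcov b hb1 hb2 (q ^ i) E ?_ ?_ hE hEc ((gD i (by omega)).1 hi1.1) _ ?_
        · refine (hpow b hb1 hb2 (l * u) hW1 (hul.trans hlk) i hi1.2).trans ?_
          have h4 : (1 : ℝ) ≤ 4 ^ (l * k) := one_le_pow₀ (by norm_num)
          have h5 : (0 : ℝ) < 2 ^ (l * k * 1100) := by positivity
          nlinarith
        · exact Nat.pow_le_pow_right (by omega) (by omega)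
        · intro y hy
          rw [hEv] at hy
          rcases hy with hy | hy | hy
          · exact hEs _ _ hy.2.2
          · exfalso; have := Finset.mem_Ico.1 c1.1; omega
          · exfalso; have := Finset.mem_Ico.1 c1.1; omega
      · by_cases c2 : u = k ∧ b + 1100 ≤ 3200 + T ∧ i ∈ Ioc t₁ (tt q (l * k * 1100) (Jt - l * k * b))
        · obtain ⟨cu, cb, ci⟩ := c2
          have hlkc : l * k * 1100 ≤ Jt - l * k * b := by
            have : l * k * (b + 1100) ≤ Jt := (Nat.mul_le_mul_left _ cb).trans hJt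
            rw [Nat.mul_add] at this
            omega
          obtain ⟨hc1, -⟩ := hCOC q m g t₁ l k 3200 Jt 1100 (Jt - l * k * b) (4 ^ (l * k)) wm hP hlkc
            rfl le_rfl (gC cb)
          obtain ⟨E, hE, hEc, hEs⟩ := hc1 i ci
          have hi1 := Finset.mem_Ioc.1 ci
          refine hcov b hb1 hb2 (q ^ i) E ?_ ?_ hE hEc ((gD i (by omega)).1 hi1.1) _ ?_
          · refine (hpow b hb1 hb2 (l * k * 1100) le_rfl hlkc i hi1.2).trans ?_
            have h4 : (1 : ℝ) ≤ 4 ^ (l * k) := one_le_pow₀ (by norm_num)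
            have h5 : (0 : ℝ) < 2 ^ (l * k * 1100) := by positivity
            nlinarith
          · exact Nat.pow_le_pow_right (by omega) (by omega)
          · intro y hy
            rw [hEv] at hy
            rcases hy with hy | hy | hy
            · exfalso; have := Finset.mem_Ico.1 hy.1; omega
            · exact hEs _ _ hy.2.2.2
            · exfalso; have := hy.1; omega
        · by_cases c3 : u = k + 1 ∧ b + 1100 ≤ 3200 + T
          · obtain ⟨cu, cb⟩ := c3
            have hlkc : l * k * 1100 ≤ Jt - l * k * b := by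
              have : l * k * (b + 1100) ≤ Jt := (Nat.mul_le_mul_left _ cb).trans hJt
              rw [Nat.mul_add] at this
              omega
            obtain ⟨-, hc2⟩ := hCOC q m g t₁ l k 3200 Jt 1100 (Jt - l * k * b) (4 ^ (l * k)) wm hP
              hlkc rfl le_rfl (gC cb)
            obtain ⟨K2, hK2⟩ : ∃ K2 : ℕ, K2 = 2 * 4 ^ (l * k) *
              q ^ tt q (l * k * 1100) (Jt - l * k * b) := ⟨_, rfl⟩
            obtain ⟨E, hE, hEc, hEs⟩ := hc2 K2 hK2
            have htt := tt_le q (l * k * 1100) (Jt - l * k * b) hq hlkc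
            have htt1 := hP.ht (Jt - l * k * b) hlk
            have htt2 := tt_mono q (l * k) (l * k * 1100) (Jt - l * k * b) (by omega)
            have hg := hP.hg
            have hD2 := (gD (tt q (l * k * 1100) (Jt - l * k * b)) (Nat.le_add_right_of_le htt)).2
            rw [← hK2] at hD2
            refine hcov b hb1 hb2 K2 E ?_ ?_ hE hEc hD2 _ ?_
            · have h5 := hpow b hb1 hb2 (l * k * 1100) le_rfl hlkc _ le_rfl
              rw [hK2]
              have h6 : (0 : ℝ) ≤ 2 * 4 ^ (l * k) := by positivity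
              have h7 := mul_le_mul_of_nonneg_left h5 h6
              push_cast at h7 ⊢
              linarith
            · rw [hK2]
              calc q ^ (t₁ + 1) ≤ q ^ tt q (l * k * 1100) (Jt - l * k * b) :=
                    Nat.pow_le_pow_right (by omega) (by omega)
                _ ≤ 2 * 4 ^ (l * k) * q ^ tt q (l * k * 1100) (Jt - l * k * b) :=
                    Nat.le_mul_of_pos_left _ (by positivity)
            · intro y hy
              rw [hEv] at hy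
              rcases hy with hy | hy | hy
              · exfalso; have := Finset.mem_Ico.1 hy.1; omega
              · exfalso; have := hy.1; omega
              · exact hEs _ _ hy.2.2
          · apply hnone
            intro y hy
            rw [hEv] at hy
            rcases hy with hy | hy | hy
            · exact c1 ⟨hy.1, hy.2.1⟩
            · exact c2 ⟨hy.1, hy.2.1, hy.2.2.1⟩
            · exact c3 ⟨hy.1, hy.2.1⟩
    · exact ⟨0, fun h1 h2 => (hb ⟨h1, h2⟩).elim⟩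
  choose bb hbb using H
  -- the induction
  have hind := hIND q l k eb om hP.marg hom0 Jt (3200 + T) 2100 (NI l k 1100) s Exc
    (fun b idx y => Ev b (idx / (l * k * 1100 + 3)) (idx % (l * k * 1100 + 3)) y) bb
    (by unfold NI; exact Nat.mul_pos (by omega) (by omega)) hs0
    (by
      intro b hb1 hb2 y hy
      have hlk := hJb' b hb2
      rw [hExc] at hy
      have hidx : ∀ u i : ℕ, u ≤ k + 1 → i < l * k * 1100 + 3 → Ev b u i y →
          ∃ idx < NI l k 1100, Ev b (idx / (l * k * 1100 + 3)) (idx % (l * k * 1100 + 3)) y := by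
        intro u i hu hi h
        refine ⟨(l * k * 1100 + 3) * u + i, ?_, ?_⟩
        · unfold NI
          calc (l * k * 1100 + 3) * u + i < (l * k * 1100 + 3) * u + (l * k * 1100 + 3) := by omega
            _ = (u + 1) * (l * k * 1100 + 3) := by ring
            _ ≤ (k + 2) * (l * k * 1100 + 3) := Nat.mul_le_mul_right _ (by omega)
        · rw [Nat.mul_add_div (by omega), Nat.mul_add_mod, Nat.div_eq_of_lt hi, Nat.mod_eq_of_lt hi,
            Nat.add_zero]
          exact h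
      rcases hy with hy | ⟨hb3, hy | hy⟩
      · obtain ⟨u, hu, i, hi, h⟩ := hy
        have hul : l * u ≤ l * k := Nat.mul_le_mul_left _ (by have := Finset.mem_Ico.1 hu; omega)
        have htt := tt_le q (l * u) (Jt - l * k * b) hq (hul.trans hlk)
        refine hidx u i (by have := Finset.mem_Ico.1 hu; omega)
          (by have := Finset.mem_Ioc.1 hi; omega) ?_
        rw [hEv]
        exact Or.inl ⟨hu, hi, h⟩
      · obtain ⟨i, hi, h⟩ := hy
        have hlkc : l * k * 1100 ≤ Jt - l * k * b := by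
          have : l * k * (b + 1100) ≤ Jt := (Nat.mul_le_mul_left _ hb3).trans hJt
          rw [Nat.mul_add] at this
          omega
        have htt := tt_le q (l * k * 1100) (Jt - l * k * b) hq hlkc
        refine hidx k i (by omega) (by have := Finset.mem_Ioc.1 hi; omega) ?_
        rw [hEv]
        exact Or.inr (Or.inl ⟨rfl, hb3, hi, h⟩)
      · refine hidx (k + 1) 0 (by omega) (by omega) ?_
        rw [hEv]
        refine Or.inr (Or.inr ⟨rfl, hb3, ?_⟩)
        exact_mod_cast hy)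
    (by
      intro b hb1 hb2 idx _
      exact hbb b idx hb1 hb2)
  -- the end
  intro b hb1 hb2 K hK1 hKs B hB x
  rw [← hom, ← hs]
  obtain ⟨b', hb'⟩ : ∃ b', b' = b - 1100 := ⟨_, rfl⟩
  have hbb' : b = b' + 1100 := by omega
  have hJ2 : l * k * (b' + 1100) ≤ Jt := (Nat.mul_le_mul_left _ (by omega)).trans hJt
  have hJ3 : l * k * 1100 ≤ Jt - l * k * b' := by
    rw [Nat.mul_add] at hJ2
    omega
  have hJ4 : Jt - l * k * b' - l * k * 1100 = Jt - l * k * b := by
    rw [hbb', Nat.mul_add]; omega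
  obtain ⟨f, hf⟩ : ∃ f : ℕ × ℕ → ℝ, f = fun y : ℕ × ℕ =>
      if (ix K (y.1 * yy q (Jt - l * k * b)), ix K (y.2 * yy q (Jt - l * k * b))) ∈ B then 1 else 0 :=
    ⟨_, rfl⟩
  rw [← hf]
  obtain ⟨CC, hCC⟩ : ∃ CC : ℝ, CC = C1 1100 := ⟨_, rfl⟩
  have hCC0 : 0 ≤ CC := by rw [hCC]; exact C1_nonneg 1100
  rw [← hCC]
  have hf0 : ∀ y, 0 ≤ f y := by intro y; rw [hf]; dsimp only; split_ifs <;> norm_num
  have hf1 : ∀ y, f y ≤ 1 := by intro y; rw [hf]; dsimp only; split_ifs <;> norm_num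
  obtain ⟨R, hR⟩ : ∃ R : ℝ, R = 7 * CC * ((B.card : ℝ) / (K : ℝ) ^ 2) +
      13 * Real.sqrt ((B.card : ℝ) / (K : ℝ) ^ 2) := ⟨_, rfl⟩
  have hsq : 0 ≤ 13 * Real.sqrt ((B.card : ℝ) / (K : ℝ) ^ 2) :=
    mul_nonneg (by norm_num) (Real.sqrt_nonneg _)
  have hR0 : 0 ≤ R := by
    rw [hR]
    exact add_nonneg (mul_nonneg (mul_nonneg (by norm_num) hCC0)
      (div_nonneg (Nat.cast_nonneg _) (sq_nonneg _))) hsq
  have hin : ∀ y, ET q l k eb om (Jt - l * k * b') 1100 f y ≤
      1 * @ite ℝ (Exc b' y) (Classical.propDecidable _) 1 0 + R := by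
    intro y
    by_cases hy : Exc b' y
    · rw [if_pos hy]
      have h1 := (s3 1100 (Jt - l * k * b') f (fun _ => 1) y hf1).trans (hone _ _ _)
      linarith
    · rw [if_neg hy]
      have hnE : ¬ ExC q m g t₁ l k 3200 Jt wm 1100 (Jt - l * k * b') (4 ^ (l * k))
        (y.1 * yy q (Jt - l * k * b')) (y.2 * yy q (Jt - l * k * b')) := by
        intro h
        apply hy
        rw [hExc]
        exact Or.inr ⟨by omega, h⟩
      have h1 := hETR q l k eb om hom0 1100 (Jt - l * k * b') f y hf0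
      have h2 := hSTP q m g t₁ l k 3200 Jt 1100 (Jt - l * k * b') (4 ^ (l * k)) wm hP hJ3 (by norm_num)
        (Nat.sub_le _ _) y hnE K hK1 hKs B hB
      rw [hJ4, ← hf, ← hom, ← hCC] at h2
      obtain ⟨E2, hE2⟩ : ∃ E2 : ℝ, E2 = (2 : ℝ) ^ (-(1 / 2000 * (l * k * (1100 : ℕ)) : ℝ)) := ⟨_, rfl⟩
      rw [← hE2] at h2
      have h3 : E2 ≤ 1 := by
        rw [hE2]
        apply Real.rpow_le_one_of_one_le_of_nonpos (by norm_num)
        have : (0 : ℝ) ≤ 1 / 2000 * (l * k * (1100 : ℕ)) :=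
          mul_nonneg (by norm_num) (mul_nonneg (mul_nonneg (Nat.cast_nonneg _) (Nat.cast_nonneg _))
            (Nat.cast_nonneg _))
        linarith
      have h5 := mul_le_mul_of_nonneg_left h3 hsq
      rw [hR]
      linarith
  have h1 := s2 b' 1100 Jt f x
  rw [← hbb'] at h1
  rw [h1]
  have h2 := s3 b' Jt _ _ x hin
  rw [s4] at h2
  have h3 := hind b' (by omega) (by omega) x
  have h4 := hconst b' Jt R x hR0
  have h6 : (1 : ℝ) ≤ 2 * (NI l k 1100 : ℝ) := by
    have h7 : 0 < NI l k 1100 := by unfold NI; exact Nat.mul_pos (by omega) (by omega)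
    have h8 : (1 : ℝ) ≤ (NI l k 1100 : ℝ) := by exact_mod_cast h7
    linarith
  have h5 : (2 * (NI l k 1100 : ℝ)) ^ (b' + 1) * s ≤ (2 * (NI l k 1100 : ℝ)) ^ (3200 + T + 1) * s :=
    mul_le_mul_of_nonneg_right (pow_le_pow_right₀ h6 (by omega)) hs0
  obtain ⟨X1, hX1⟩ : ∃ X1 : ℝ, X1 = (2 * (NI l k 1100 : ℝ)) ^ (b' + 1) * s := ⟨_, rfl⟩
  obtain ⟨X2, hX2⟩ : ∃ X2 : ℝ, X2 = (2 * (NI l k 1100 : ℝ)) ^ (3200 + T + 1) * s := ⟨_, rfl⟩
  rw [← hX1] at h3 h5
  rw [← hX2] at h5 ⊢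
  rw [hR] at h2 h4
  linarith

end Pool.Agent.H24.FD
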