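import Mathlib
import Pool.Agent.H24.FD.P5

/-!
# MP_1f2761, `k = 2`: row WIN (the window theorem)
-/

set_option autoImplicit false

open Finset Pool.K2 Pool.FD MeasureTheory

namespace Pool.Agent.H24.FD

/-- one base `q` -/
lemma win_one (hLAW : LAWStmt) (hONN : ONNStmt) (hMARG : MARGStmt) (hPQ2 : PQ2Stmt)
    (hPQQ : PQQStmt) (hPQP : PQPStmt) (q : ℕ) (hq : q = 3 ∨ q = 5) (κ : ℝ) (hκ : κ + 1 / 5000 ≤ kk)
    (hMKX : MKX q κ (xx q)) (e : ℝ) (he : 0 < e) (he1 : e ≤ 1) (P₀ T : ℕ)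
    (hT : 3200 / (3200 + (T : ℝ)) ≤ e / 16) :
    ∃ l₀ : ℕ, ∀ l ≥ l₀, ∀ W : ℕ, W = l * l * (3200 + T) →
    ∃ (P : ℕ → ℕ × ℕ → ℕ → ℕ → ℝ) (β : ℕ → ℕ → ℝ),
      (∀ J x η ξ, 0 ≤ P J x η ξ) ∧
      (∀ J x, ∀ η < 2 ^ W, ∑ ξ ∈ range (2 ^ W), P J x η ξ = 1 / 2 ^ W) ∧
      (∀ p ≤ P₀, p.Prime → ∀ J x, ∑ η ∈ range (2 ^ W), ∑ ξ ∈ range (2 ^ W),
        P J x η ξ * (bad p W J (2 ^ W * x.1 + η, 2 ^ W * x.2 + ξ) : ℝ) ≤ β p J) ∧
      (∀ p ≤ P₀, p.Prime → ∃ K₀ : ℕ, ∀ K ≥ K₀, ∀ J : ℕ,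
        ∑ i ∈ range K, β p (J + i * W) ≤ (dens q p + e) * (K * W)) := by
  have hq2 : 2 ≤ q := by rcases hq with h | h <;> omega
  have hq0 : (0 : ℝ) < q := by exact_mod_cast (by omega : 0 < q)
  have hq1 : (1 : ℝ) < q := by exact_mod_cast (by omega : 1 < q)
  -- the number of free bottom digits
  obtain ⟨g, hg1, hg⟩ : ∃ g : ℕ, 1 ≤ g ∧ 2 * (q : ℝ) ^ 2 / (q : ℝ) ^ g ≤ e / 16 := by
    obtain ⟨n, hn⟩ := pow_unbounded_of_one_lt (2 * (q : ℝ) ^ 2 / (e / 16)) hq1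
    refine ⟨n + 1, by omega, ?_⟩
    rw [div_le_iff₀ (by positivity)]
    rw [div_lt_iff₀ (by positivity)] at hn
    have h1 : (q : ℝ) ^ n ≤ (q : ℝ) ^ (n + 1) := pow_le_pow_right₀ hq1.le (by omega)
    have h2 := mul_le_mul_of_nonneg_left h1 (by positivity : (0 : ℝ) ≤ e / 16)
    linarith
  -- the macro kernel
  obtain ⟨εk, hεk⟩ : ∃ εk : ℝ, εk = min (e / 816) (1 / 5000) := ⟨_, rfl⟩
  have hεk0 : 0 < εk := by rw [hεk]; exact lt_min (by positivity) (by norm_num)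
  have hεk1 : εk ≤ e / 816 := by rw [hεk]; exact min_le_left _ _
  have hεk2 : εk ≤ 1 / 5000 := by rw [hεk]; exact min_le_right _ _
  obtain ⟨m, hm1, -, wm, hwm, hcount⟩ := hMKX εk hεk0 1
  have hMK : MK q m kk wm := by
    refine ⟨hwm.nonneg, hwm.sum_one, fun V A => (hwm.le V A).trans ?_⟩
    apply Real.rpow_le_rpow_of_exponent_le hq1.le
    apply mul_le_mul_of_nonneg_right _ (Nat.cast_nonneg _)
    linarith
  have hθ : 0 < e / 32 := by positivity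
  -- one base `p`
  have hPQ : ∀ p : ℕ, p.Prime → PQ q p e T m g (e / 32) wm := by
    intro p hp
    by_cases h2 : p = 2
    · rw [h2]
      exact hPQ2 q hq e T m g (e / 32) wm he hm1 hg1 hθ (by linarith) hMK
    · by_cases h3 : p = q
      · rw [h3]
        exact hPQQ q hq e T m g (e / 32) εk wm he he1 hT hm1 hg1 hθ le_rfl hεk0.le hεk1 hg hMK hcount
      · exact hPQP q hq p hp h2 h3 e T m g (e / 32) wm he he1 hT hm1 hg1 hθ le_rfl hMK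
  have hPQ' : ∀ p ∈ (range (P₀ + 1)).filter Nat.Prime, ∀ᶠ l in Filter.atTop,
      ∀ W : ℕ, W = l * l * (3200 + T) → ∃ β : ℕ → ℝ,
      (∀ (J : ℕ) (x : ℕ × ℕ), EQ q l l eb (omW q m g (t1 (e / 32) l) wm (l * l) 3200 (J + W)) (J + W)
        (3200 + T) (fun y => (bad p W J y : ℝ)) x ≤ β J) ∧
      ∃ K₀ : ℕ, ∀ K ≥ K₀, ∀ J : ℕ, ∑ i ∈ range K, β (J + i * W) ≤ (dens q p + e) * (K * W) := by
    intro p hp
    exact Filter.eventually_atTop.2 (hPQ p (Finset.mem_filter.1 hp).2)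
  rw [← Filter.eventually_all_finset] at hPQ'
  obtain ⟨l₁, hl₁⟩ := Filter.eventually_atTop.1 hPQ'
  obtain ⟨l₂, hl₂⟩ := hMARG eb (by unfold eb; norm_num)
  refine ⟨max l₁ l₂, fun l hl W hW => ?_⟩
  have hMg := hl₂ l (le_trans (le_max_right _ _) hl)
  have h1 := hl₁ l (le_trans (le_max_left _ _) hl)
  have h2 : ∀ p : ℕ, ∃ β : ℕ → ℝ, p ≤ P₀ → p.Prime →
      (∀ (J : ℕ) (x : ℕ × ℕ), EQ q l l eb (omW q m g (t1 (e / 32) l) wm (l * l) 3200 (J + W)) (J + W)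
        (3200 + T) (fun y => (bad p W J y : ℝ)) x ≤ β J) ∧
      ∃ K₀ : ℕ, ∀ K ≥ K₀, ∀ J : ℕ, ∑ i ∈ range K, β (J + i * W) ≤ (dens q p + e) * (K * W) := by
    intro p
    by_cases hp : p ≤ P₀ ∧ p.Prime
    · obtain ⟨β, hβ⟩ := h1 p (Finset.mem_filter.2 ⟨Finset.mem_range.2 (by omega), hp.2⟩) W hW
      exact ⟨β, fun _ _ => hβ⟩
    · exact ⟨fun _ => 0, fun a b => (hp ⟨a, b⟩).elim⟩
  choose β hβ using h2
  have hom : ∀ Jt J z, 0 ≤ omW q m g (t1 (e / 32) l) wm (l * l) 3200 Jt J z := fun Jt =>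
    hONN q m g (t1 (e / 32) l) (l * l) 3200 Jt kk wm hq2 hg1 hMK
  have hlaw := fun J x => hLAW q l l eb (omW q m g (t1 (e / 32) l) wm (l * l) 3200 (J + W)) hMg
    (hom (J + W)) (3200 + T) (J + W) x
  rw [← hW] at hlaw
  refine ⟨fun J x η ξ => PW q l l eb (omW q m g (t1 (e / 32) l) wm (l * l) 3200 (J + W)) (J + W)
    (3200 + T) x η ξ, β, ?_, ?_, ?_, ?_⟩
  · intro J x η ξ
    exact (hlaw J x).1 η ξ
  · intro J x η hη
    exact (hlaw J x).2.1 η hη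
  · intro p hp hpp J x
    have h3 := (hβ p hp hpp).1 J x
    rw [(hlaw J x).2.2] at h3
    exact h3
  · intro p hp hpp
    exact (hβ p hp hpp).2

/-- row WIN -/
theorem winr : WINRStmt := by
  intro hLAW hONN hMARG _ hMKX3 hMKX5 hPQ2 hPQQ hPQP ε hε P₀
  obtain ⟨e, he⟩ : ∃ e : ℝ, e = min ε 1 := ⟨_, rfl⟩
  have he0 : 0 < e := by rw [he]; exact lt_min hε one_pos
  have he1 : e ≤ 1 := by rw [he]; exact min_le_right _ _
  have heε : e ≤ ε := by rw [he]; exact min_le_left _ _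
  obtain ⟨T, hT⟩ : ∃ T : ℕ, 3200 / (3200 + (T : ℝ)) ≤ e / 16 := by
    obtain ⟨n, hn⟩ := exists_nat_ge (3200 / (e / 16))
    refine ⟨n, ?_⟩
    rw [div_le_iff₀ (by positivity)] at hn
    rw [div_le_iff₀ (by positivity)]
    have : 0 < e / 16 := by positivity
    nlinarith
  have x3 : xx 3 = 33 / 38 := by unfold xx; norm_num
  have x5 : xx 5 = 86 / 95 := by unfold xx; norm_num
  obtain ⟨l3, h3⟩ := win_one hLAW hONN hMARG hPQ2 hPQQ hPQP 3 (Or.inl rfl) (193 / 750)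
    (by unfold kk; norm_num) (by rw [x3]; exact hMKX3) e he0 he1 P₀ T hT
  obtain ⟨l5, h5⟩ := win_one hLAW hONN hMARG hPQ2 hPQQ hPQP 5 (Or.inr rfl) (393 / 1500)
    (by unfold kk; norm_num) (by rw [x5]; exact hMKX5) e he0 he1 P₀ T hT
  obtain ⟨l, hl⟩ : ∃ l, l = max (max l3 l5) 1 := ⟨_, rfl⟩
  have hl1 : 1 ≤ l := by rw [hl]; exact le_max_right _ _
  have hl3 : l3 ≤ l := by rw [hl]; exact (le_max_left _ _).trans (le_max_left _ _)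
  have hl5 : l5 ≤ l := by rw [hl]; exact (le_max_right _ _).trans (le_max_left _ _)
  refine ⟨l * l * (3200 + T), Nat.mul_pos (Nat.mul_pos hl1 hl1) (by omega), fun q hq => ?_⟩
  have key : ∃ (P : ℕ → ℕ × ℕ → ℕ → ℕ → ℝ) (β : ℕ → ℕ → ℝ),
      (∀ J x η ξ, 0 ≤ P J x η ξ) ∧
      (∀ J x, ∀ η < 2 ^ (l * l * (3200 + T)), ∑ ξ ∈ range (2 ^ (l * l * (3200 + T))), P J x η ξ =
        1 / 2 ^ (l * l * (3200 + T))) ∧
      (∀ p ≤ P₀, p.Prime → ∀ J x, ∑ η ∈ range (2 ^ (l * l * (3200 + T))),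
        ∑ ξ ∈ range (2 ^ (l * l * (3200 + T))),
        P J x η ξ * (bad p (l * l * (3200 + T)) J (2 ^ (l * l * (3200 + T)) * x.1 + η,
          2 ^ (l * l * (3200 + T)) * x.2 + ξ) : ℝ) ≤ β p J) ∧
      (∀ p ≤ P₀, p.Prime → ∃ K₀ : ℕ, ∀ K ≥ K₀, ∀ J : ℕ,
        ∑ i ∈ range K, β p (J + i * (l * l * (3200 + T))) ≤
          (dens q p + e) * (K * ((l * l * (3200 + T) : ℕ) : ℝ))) := by
    rcases hq with h | h
    · subst h; exact h3 l hl3 _ rfl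
    · subst h; exact h5 l hl5 _ rfl
  obtain ⟨P, β, k1, k2, k3, k4⟩ := key
  refine ⟨P, β, k1, k2, k3, fun p hp hpp => ?_⟩
  obtain ⟨K₀, hK₀⟩ := k4 p hp hpp
  refine ⟨K₀, fun K hK J => (hK₀ K hK J).trans ?_⟩
  apply mul_le_mul_of_nonneg_right _ (by positivity)
  linarith

end Pool.Agent.H24.FD
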